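import Mathlib

/-! The `p`-th roots of `c` fixed by an automorphism: a relation. -/

set_option autoImplicit false

namespace Pool.Agent.Q5.BR

section
variable {p : ℕ} [hp : Fact p.Prime]

/-- the number of the solutions of `k j + s = j` -/
noncomputable def Nk (k s : ZMod p) : ℕ := Nat.card {j : ZMod p // k * j + s = j}

theorem Nk_ne {k : ZMod p} (hk : k ≠ 1) (s : ZMod p) : Nk k s = 1 := by
  have hk' : (1 : ZMod p) - k ≠ 0 := sub_ne_zero.2 (Ne.symm hk)
  unfold Nk
  rw [Nat.card_eq_one_iff_unique]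
  refine ⟨⟨fun i j => Subtype.ext ?_⟩, ⟨⟨s / (1 - k), ?_⟩⟩⟩
  · have hi := i.2
    have hj := j.2
    have h : (1 - k) * (i.1 - j.1) = 0 := by linear_combination hj - hi
    exact sub_eq_zero.1 ((mul_eq_zero.1 h).resolve_left hk')
  · field_simp
    ring

theorem Nk_one_zero : Nk (1 : ZMod p) 0 = p := by
  unfold Nk
  have h : ∀ j : ZMod p, (1 * j + 0 = j) := fun j => by ring
  rw [Nat.card_congr (Equiv.subtypeUnivEquiv h), Nat.card_zmod]

theorem Nk_one_ne {s : ZMod p} (hs : s ≠ 0) : Nk (1 : ZMod p) s = 0 := by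
  unfold Nk
  rw [Nat.card_eq_zero]
  left
  refine ⟨fun j => hs ?_⟩
  have := j.2
  linear_combination this

theorem sum_range_zmod (f : ZMod p → ℕ) :
    ∑ i ∈ Finset.range p, f ((i : ℕ) : ZMod p) = ∑ j : ZMod p, f j := by
  refine Finset.sum_nbij' (fun i => ((i : ℕ) : ZMod p)) (fun j => j.val) ?_ ?_ ?_ ?_ ?_
  · intro i _
    exact Finset.mem_univ _
  · intro j _
    exact Finset.mem_range.2 (ZMod.val_lt j)
  · intro i hi
    exact ZMod.val_cast_of_lt (Finset.mem_range.1 hi)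
  · intro j _
    exact ZMod.natCast_zmod_val j
  · intro i _
    rfl

theorem Nk_rel (k s t : ZMod p) :
    ∑ i ∈ Finset.range p, Nk k (s + ((i : ℕ) : ZMod p) * t) + Nk k t = p + Nk k s * Nk k t := by
  classical
  by_cases hk : k = 1
  · subst hk
    by_cases ht : t = 0
    · subst ht
      simp only [mul_zero, add_zero, Finset.sum_const, Finset.card_range, smul_eq_mul,
        Nk_one_zero]
      ring
    · rw [Nk_one_ne ht, mul_zero, add_zero, add_zero,
        sum_range_zmod (fun j => Nk (1 : ZMod p) (s + j * t))]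
      rw [Finset.sum_eq_single (-s / t)]
      · have : s + -s / t * t = 0 := by field_simp; ring
        rw [this, Nk_one_zero]
      · intro j _ hj
        apply Nk_one_ne
        intro h
        apply hj
        rw [eq_div_iff ht]
        linear_combination h
      · intro h
        exact absurd (Finset.mem_univ _) h
  · simp only [Nk_ne hk, Finset.sum_const, Finset.card_range, smul_eq_mul, mul_one]

end

section
variable {Ω : Type} [Field Ω] [CharZero Ω] [IsAlgClosed Ω] {p : ℕ} [hp : Fact p.Prime]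

/-- the number of the `p`-th roots of `c` fixed by `σ` -/
noncomputable def Rr (p : ℕ) (σ : Ω →+* Ω) (c : Ω) : ℕ := Nat.card {r : Ω // r ^ p = c ∧ σ r = r}

theorem Rr_rel (σ : Ω →+* Ω) {a b : Ω} (ha : a ≠ 0) (hb : b ≠ 0) (hσa : σ a = a)
    (hσb : σ b = b) :
    ∑ i ∈ Finset.range p, Rr p σ (a * b ^ i) + Rr p σ b = p + Rr p σ a * Rr p σ b := by
  classical
  have hp0 : 0 < p := hp.out.pos
  have hpn : NeZero p := ⟨hp0.ne'⟩
  have hpc : NeZero (p : Ω) := ⟨by exact_mod_cast hp0.ne'⟩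
  obtain ⟨ζ, hζ⟩ := HasEnoughRootsOfUnity.exists_primitiveRoot Ω p
  have hζ1 : ζ ^ p = 1 := hζ.pow_eq_one
  let u : ZMod p → Ω := fun j => ζ ^ j.val
  have hmod : ∀ m : ℕ, ζ ^ (m % p) = ζ ^ m := by
    intro m
    conv_rhs => rw [← Nat.div_add_mod m p, pow_add, pow_mul, hζ1, one_pow, one_mul]
  have hcast : ∀ m : ℕ, u (m : ZMod p) = ζ ^ m := by
    intro m
    change ζ ^ (m : ZMod p).val = _
    rw [ZMod.val_natCast, hmod]
  have huadd : ∀ i j, u (i + j) = u i * u j := by
    intro i j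
    have h : i + j = ((i.val + j.val : ℕ) : ZMod p) := by
      push_cast
      rw [ZMod.natCast_zmod_val, ZMod.natCast_zmod_val]
    rw [h, hcast, pow_add]
  have humul : ∀ i j, (u i) ^ j.val = u (i * j) := by
    intro i j
    have h : i * j = ((i.val * j.val : ℕ) : ZMod p) := by
      push_cast
      rw [ZMod.natCast_zmod_val, ZMod.natCast_zmod_val]
    rw [h, hcast, pow_mul]
  have hu1 : ∀ j, (u j) ^ p = 1 := by
    intro j
    change (ζ ^ j.val) ^ p = 1
    rw [← pow_mul, mul_comm, pow_mul, hζ1, one_pow]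
  have hu0 : ∀ j, u j ≠ 0 := by
    intro j h
    have := hu1 j
    rw [h, zero_pow hp0.ne'] at this
    exact zero_ne_one this
  have huinj : ∀ i j, u i = u j → i = j := by
    intro i j h
    exact ZMod.val_injective p (hζ.pow_inj (ZMod.val_lt i) (ZMod.val_lt j) h)
  have husurj : ∀ x : Ω, x ^ p = 1 → ∃ j, u j = x := by
    intro x hx
    obtain ⟨i, _, hi⟩ := hζ.eq_pow_of_pow_eq_one hx
    exact ⟨(i : ZMod p), by rw [hcast, hi]⟩
  obtain ⟨k, hk⟩ := husurj (σ ζ) (by rw [← map_pow, hζ1, map_one])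
  have hσu : ∀ j, σ (u j) = u (k * j) := by
    intro j
    change σ (ζ ^ j.val) = _
    rw [map_pow, ← hk, humul]
  -- the count for a number with a given root
  have key : ∀ (γ : Ω) (s : ZMod p), γ ≠ 0 → σ γ = u s * γ → Rr p σ (γ ^ p) = Nk k s := by
    intro γ s hγ hs
    unfold Rr Nk
    symm
    refine Nat.card_eq_of_bijective (fun j => ⟨u j.1 * γ, ?_, ?_⟩) ⟨?_, ?_⟩
    · rw [mul_pow, hu1, one_mul]
    · rw [map_mul, hσu, hs, ← mul_assoc, ← huadd, j.2]
    · intro i j hij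
      apply Subtype.ext
      have h1 := congrArg Subtype.val hij
      exact huinj _ _ (mul_right_cancel₀ hγ h1)
    · rintro ⟨r, hr1, hr2⟩
      obtain ⟨j, hj⟩ := husurj (r / γ) (by rw [div_pow, hr1, div_self (pow_ne_zero _ hγ)])
      have hr : r = u j * γ := by rw [hj]; field_simp
      refine ⟨⟨j, ?_⟩, Subtype.ext hr.symm⟩
      rw [hr, map_mul, hσu, hs, ← mul_assoc, ← huadd] at hr2
      exact huinj _ _ (mul_right_cancel₀ hγ hr2)
  have hroot : ∀ c : Ω, c ≠ 0 → σ c = c → ∃ γ s, γ ≠ 0 ∧ γ ^ p = c ∧ σ γ = u s * γ := by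
    intro c hc hσc
    obtain ⟨γ, hγ⟩ := IsAlgClosed.exists_pow_nat_eq c hp0
    have hγ0 : γ ≠ 0 := by
      rintro rfl
      rw [zero_pow hp0.ne'] at hγ
      exact hc hγ.symm
    obtain ⟨s, hs⟩ := husurj (σ γ / γ) (by
      rw [div_pow, ← map_pow, hγ, hσc, div_self hc])
    exact ⟨γ, s, hγ0, hγ, by rw [hs]; field_simp⟩
  obtain ⟨α, s, hα0, hα, hs⟩ := hroot a ha hσa
  obtain ⟨β, t, hβ0, hβ, ht⟩ := hroot b hb hσb
  have hsi : ∀ i : ℕ, σ (α * β ^ i) = u (s + (i : ZMod p) * t) * (α * β ^ i) := by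
    intro i
    have h2 : (u t) ^ i = u ((i : ZMod p) * t) := by
      induction i with
      | zero => simp [u]
      | succ i ih => rw [pow_succ, ih, ← huadd]; congr 1; push_cast; ring
    rw [map_mul, map_pow, hs, ht, mul_pow, h2, huadd]
    ring
  have h3 : ∀ i : ℕ, Rr p σ (a * b ^ i) = Nk k (s + (i : ZMod p) * t) := by
    intro i
    rw [← hα, ← hβ, ← key (α * β ^ i) _ (mul_ne_zero hα0 (pow_ne_zero _ hβ0)) (hsi i)]
    congr 1
    ring
  rw [Finset.sum_congr rfl fun i _ => h3 i, ← hα, ← hβ, key α s hα0 hs, key β t hβ0 ht]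
  exact Nk_rel k s t

end

end Pool.Agent.Q5.BR
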