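import Pool.Agent.Q5.BR.Cont

/-! A singular Weierstrass cubic over a finite field has an affine point; the factors at `s = 1`. -/

set_option autoImplicit false
set_option linter.unusedSectionVars false

namespace Pool.Agent.Q5.BR

open NumberField IsDedekindDomain Filter Pool.Agent.H341R2 Pool.Agent.H341R2.EC Polynomial
  Pool.Agent.H921R2.TatePole

open Pool.Agent.TH322.BC.Edge renaming LSeries → LS

theorem exists_point_of_singular {k : Type} [Field k] [Finite k] (V : WeierstrassCurve k)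
    (hΔ : V.Δ = 0) : ∃ x y : k, y ^ 2 + V.a₁ * x * y + V.a₃ * y =
      x ^ 3 + V.a₂ * x ^ 2 + V.a₄ * x + V.a₆ := by
  classical
  have := Fintype.ofFinite k
  by_cases h2 : ringChar k = 2
  · have hc : CharP k 2 := ringChar.of_eq h2
    have h20 : (2 : k) = 0 := CharTwo.two_eq_zero
    have hsq : ∀ z : k, ∃ y : k, y ^ 2 = z := fun z => by
      obtain ⟨y, hy⟩ := FiniteField.isSquare_of_char_two h2 z
      exact ⟨y, by rw [hy, sq]⟩
    by_cases ha : V.a₁ = 0
    · have ha3 : V.a₃ = 0 := by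
        have h3 : V.Δ = V.a₃ ^ 4 := by
          simp only [WeierstrassCurve.Δ, WeierstrassCurve.b₂, WeierstrassCurve.b₄,
            WeierstrassCurve.b₆, WeierstrassCurve.b₈, ha]
          linear_combination (-(8 : k) * V.a₄ ^ 3 * 4 - 14 * V.a₃ ^ 4 - 108 * V.a₃ ^ 2 * V.a₆ -
            216 * V.a₆ ^ 2 + 36 * V.a₂ * V.a₄ * V.a₃ ^ 2 + 144 * V.a₂ * V.a₄ * V.a₆ -
            8 * V.a₂ ^ 2 * (4 * V.a₂ * V.a₆ + V.a₂ * V.a₃ ^ 2 - V.a₄ ^ 2)) * h20
        rw [h3] at hΔ
        exact pow_eq_zero_iff (by norm_num) |>.1 hΔ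
      obtain ⟨y, hy⟩ := hsq V.a₆
      refine ⟨0, y, ?_⟩
      rw [ha, ha3, hy]
      ring
    · obtain ⟨x, hx⟩ : ∃ x : k, V.a₁ * x + V.a₃ = 0 :=
        ⟨-V.a₃ / V.a₁, by field_simp; ring⟩
      obtain ⟨y, hy⟩ := hsq (x ^ 3 + V.a₂ * x ^ 2 + V.a₄ * x + V.a₆)
      refine ⟨x, y, ?_⟩
      rw [← hy]
      linear_combination y * hx
  · have h20 : (2 : k) ≠ 0 := Ring.two_ne_zero h2
    have h40 : (4 : k) ≠ 0 := by
      have : (4 : k) = 2 * 2 := by norm_num
      rw [this]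
      exact mul_ne_zero h20 h20
    have ha : V.twoTorsionPolynomial.a ≠ 0 := h40
    have hdisc : V.twoTorsionPolynomial.discr = 0 := by
      rw [WeierstrassCurve.twoTorsionPolynomial_discr, hΔ, mul_zero]
    have hroot : ∃ x : k, V.twoTorsionPolynomial.toPoly.IsRoot x := by
      by_contra hno
      push Not at hno
      have hnat : V.twoTorsionPolynomial.toPoly.natDegree = 3 :=
        Cubic.natDegree_of_a_ne_zero ha
      have hirr : Irreducible V.twoTorsionPolynomial.toPoly :=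
        Polynomial.irreducible_of_degree_le_three_of_not_isRoot (by
          rw [hnat, Finset.mem_Icc]; omega) hno
      have hsep : V.twoTorsionPolynomial.toPoly.Separable := PerfectField.separable_of_irreducible hirr
      set L := AlgebraicClosure k
      have hsplit : (V.twoTorsionPolynomial.toPoly.map (algebraMap k L)).Splits :=
        IsAlgClosed.splits _
      refine (Cubic.discr_ne_zero_iff_roots_nodup ha hsplit).2 ?_ hdisc
      rw [Cubic.map_roots]
      exact Polynomial.nodup_roots hsep.map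
    obtain ⟨x, hx⟩ := hroot
    refine ⟨x, -(V.a₁ * x + V.a₃) / 2, ?_⟩
    have h3 : 4 * x ^ 3 + V.b₂ * x ^ 2 + 2 * V.b₄ * x + V.b₆ = 0 := by
      have h4 : V.twoTorsionPolynomial.toPoly.eval x = 0 := hx
      simp only [Cubic.toPoly, WeierstrassCurve.twoTorsionPolynomial, eval_add, eval_mul, eval_C,
        eval_pow, eval_X] at h4
      exact h4
    simp only [WeierstrassCurve.b₂, WeierstrassCurve.b₄, WeierstrassCurve.b₆] at h3
    field_simp
    linear_combination -h3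

theorem aff_pos_of_singular {k : Type} [Field k] [Finite k] (V : WeierstrassCurve k)
    (hΔ : V.Δ = 0) : 0 < aff V := by
  obtain ⟨x, y, h⟩ := exists_point_of_singular V hΔ
  unfold aff
  exact Nat.card_pos_iff.2 ⟨⟨⟨(x, y), h⟩⟩, inferInstance⟩

section
variable {F : Type} [Field F] [NumberField F]

/-- the factor at `s = 1` does not vanish -/
theorem fac_one_ne (V : HeightOneSpectrum (𝓞 F) → WeierstrassCurve (𝓞 F))
    (w : HeightOneSpectrum (𝓞 F)) : 1 - zz V w 1 ≠ 0 := by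
  classical
  have hq : (nm w : ℂ) ≠ 0 := by
    have := two_le_nm w
    exact_mod_cast (by omega : nm w ≠ 0)
  have h1 : ((nm w : ℕ) : ℂ) ^ (-(1 : ℂ)) = (nm w : ℂ)⁻¹ := by
    rw [Complex.cpow_neg, Complex.cpow_one]
  have h2 : ((nm w : ℕ) : ℂ) ^ (1 - 2 * (1 : ℂ)) = (nm w : ℂ)⁻¹ := by
    rw [← h1]
    norm_num
  have hval : ∀ e : ℕ, 1 - ((((nm w : ℤ) - (aff (red w (V w)) : ℤ) : ℤ) : ℂ) *
      ((nm w : ℕ) : ℂ) ^ (-(1 : ℂ)) - (e : ℂ) * ((nm w : ℕ) : ℂ) ^ (1 - 2 * (1 : ℂ))) =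
      ((aff (red w (V w)) + e : ℕ) : ℂ) * (nm w : ℂ)⁻¹ := by
    intro e
    rw [h1, h2]
    push_cast
    field_simp
    ring
  have hfin : Finite (𝓞 F ⧸ w.asIdeal) :=
    Ideal.finiteQuotientOfFreeOfNeBot w.asIdeal w.ne_bot
  have hmax : w.asIdeal.IsMaximal := w.isMaximal
  let _ : Field (𝓞 F ⧸ w.asIdeal) := Ideal.Quotient.field w.asIdeal
  unfold zz
  split_ifs with hbad
  · have h3 := hval 0
    rw [Nat.cast_zero, add_zero] at h3
    rw [h3]
    refine mul_ne_zero ?_ (inv_ne_zero hq)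
    have h4 : 0 < aff (red w (V w)) := by
      apply aff_pos_of_singular
      unfold red
      rw [WeierstrassCurve.map_Δ]
      exact Ideal.Quotient.eq_zero_iff_mem.2 hbad
    exact_mod_cast h4.ne'
  · have h3 := hval 1
    rw [Nat.cast_one] at h3
    rw [h3]
    refine mul_ne_zero ?_ (inv_ne_zero hq)
    exact_mod_cast Nat.succ_ne_zero (aff (red w (V w)))

theorem fac_analytic (V : HeightOneSpectrum (𝓞 F) → WeierstrassCurve (𝓞 F))
    (w : HeightOneSpectrum (𝓞 F)) : AnalyticAt ℂ (fun s => (1 - zz V w s)⁻¹) 1 :=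
  (((differentiable_const 1).sub (differentiable_zz V w)).analyticAt 1).fun_inv (fac_one_ne V w)

end

section
variable {K : Type} [Field K] [NumberField K] {ι : Type} [Fintype ι]

theorem Rfun_one_ne {X : ι → Ext K} (n : ι → ℤ) (m : ℤ)
    (V₀ : HeightOneSpectrum (𝓞 K) → WeierstrassCurve (𝓞 K))
    (V : ∀ j, HeightOneSpectrum (𝓞 (X j).F) → WeierstrassCurve (𝓞 (X j).F))
    (S : Finset (HeightOneSpectrum (𝓞 K))) : Rfun n m V₀ V S 1 ≠ 0 := by
  unfold Rfun
  refine Finset.prod_ne_zero_iff.2 fun v _ => mul_ne_zero (zpow_ne_zero _ ?_)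
    (Finset.prod_ne_zero_iff.2 fun j _ => zpow_ne_zero _ ?_)
  · exact Finset.prod_ne_zero_iff.2 fun w _ => inv_ne_zero (fac_one_ne _ _)
  · exact Finset.prod_ne_zero_iff.2 fun w _ => inv_ne_zero (fac_one_ne _ _)

theorem Rfun_analytic {X : ι → Ext K} (n : ι → ℤ) (m : ℤ)
    (V₀ : HeightOneSpectrum (𝓞 K) → WeierstrassCurve (𝓞 K))
    (V : ∀ j, HeightOneSpectrum (𝓞 (X j).F) → WeierstrassCurve (𝓞 (X j).F))
    (S : Finset (HeightOneSpectrum (𝓞 K))) : AnalyticAt ℂ (Rfun n m V₀ V S) 1 := by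
  unfold Rfun
  refine Finset.analyticAt_fun_prod _ fun v _ => ?_
  refine AnalyticAt.fun_mul ?_ (Finset.analyticAt_fun_prod _ fun j _ => ?_)
  · refine AnalyticAt.fun_zpow (Finset.analyticAt_fun_prod _ fun w _ => fac_analytic _ _) ?_
    exact Finset.prod_ne_zero_iff.2 fun w _ => inv_ne_zero (fac_one_ne _ _)
  · refine AnalyticAt.fun_zpow (Finset.analyticAt_fun_prod _ fun w _ => fac_analytic _ _) ?_
    exact Finset.prod_ne_zero_iff.2 fun w _ => inv_ne_zero (fac_one_ne _ _)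

theorem Rfun_order {X : ι → Ext K} (n : ι → ℤ) (m : ℤ)
    (V₀ : HeightOneSpectrum (𝓞 K) → WeierstrassCurve (𝓞 K))
    (V : ∀ j, HeightOneSpectrum (𝓞 (X j).F) → WeierstrassCurve (𝓞 (X j).F))
    (S : Finset (HeightOneSpectrum (𝓞 K))) : meromorphicOrderAt (Rfun n m V₀ V S) 1 = 0 := by
  rw [(Rfun_analytic n m V₀ V S).meromorphicOrderAt_eq,
    (Rfun_analytic n m V₀ V S).analyticOrderAt_eq_zero.2 (Rfun_one_ne n m V₀ V S)]
  rfl

end

end Pool.Agent.Q5.BR
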