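import Pool.Agent.Q5.BR.Rank2
import Pool.Agent.Q5.BR.Sing

/-! Degree laws for the order of vanishing at `s = 1` and the rank. -/

set_option autoImplicit false
set_option linter.unusedSectionVars false

namespace Pool.Agent.Q5.BR

open NumberField IsDedekindDomain Filter Pool.Agent.H341R2 Pool.Agent.H341R2.EC
  Pool.Agent.H921R2.TatePole Pool.Agent.W353.NF Pool.Agent.W401.Cheb
open Pool.Agent.TH322.BC.Edge (MinimalModels)
open scoped Topology

open Pool.Agent.TH322.BC.Edge renaming LSeries → LS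

/-- the rank of the group of the points -/
noncomputable def rk {F : Type} [Field F] (E : WeierstrassCurve F) : ℕ := by
  classical
  exact Module.finrank ℤ E.toAffine.Point

/-- families of domains -/
def IsDomains (U : Set (Set ℂ)) : Prop :=
  U.Nonempty ∧ (∀ u ∈ U, IsOpen u ∧ IsPreconnected u ∧ (1 : ℂ) ∈ u ∧ ∀ s : ℂ, 3 / 2 < s.re → s ∈ u) ∧
    ∀ u ∈ U, ∀ u' ∈ U, u ∩ u' ∈ U

theorem IsDomains.inter_fin {U : Set (Set ℂ)} (hU : IsDomains U) {ι : Type} [Finite ι]
    {u : ι → Set ℂ} (hu : ∀ j, u j ∈ U) : ∃ u₀ ∈ U, ∀ j, u₀ ⊆ u j := by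
  classical
  have := Fintype.ofFinite ι
  have h : ∀ A : Finset ι, ∃ u₀ ∈ U, ∀ j ∈ A, u₀ ⊆ u j := by
    intro A
    induction A using Finset.induction_on with
    | empty =>
      obtain ⟨u₀, h0⟩ := hU.1
      exact ⟨u₀, h0, by simp⟩
    | insert a A _ ih =>
      obtain ⟨u₀, h0, h1⟩ := ih
      refine ⟨u a ∩ u₀, hU.2.2 _ (hu a) _ h0, fun j hj => ?_⟩
      rcases Finset.mem_insert.1 hj with rfl | hj
      · exact Set.inter_subset_left
      · exact Set.inter_subset_right.trans (h1 j hj)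
  obtain ⟨u₀, h0, h1⟩ := h Finset.univ
  exact ⟨u₀, h0, fun j => h1 j (Finset.mem_univ j)⟩

section
variable {K : Type} [Field K] [NumberField K]

/-- `L^t` has a continuation of order `r` at `s = 1` -/
def PowB (U : Set (Set ℂ)) (V : HeightOneSpectrum (𝓞 K) → WeierstrassCurve (𝓞 K)) (t r : ℤ) :
    Prop :=
  ∃ u ∈ U, ∃ f : ℂ → ℂ, MeromorphicOn f u ∧ (∀ s : ℂ, 3 / 2 < s.re → f s = (LS V s) ^ t) ∧
    meromorphicOrderAt f 1 = (r : WithTop ℤ)

theorem PowB.zero {U : Set (Set ℂ)} (hU : IsDomains U)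
    (V : HeightOneSpectrum (𝓞 K) → WeierstrassCurve (𝓞 K)) : PowB U V 0 0 := by
  obtain ⟨u, hu⟩ := hU.1
  refine ⟨u, hu, fun _ => 1, fun _ _ => MeromorphicAt.const _ _, fun _ _ => (zpow_zero _).symm, ?_⟩
  rw [meromorphicOrderAt_const, if_neg one_ne_zero]
  rfl

theorem PowB.add {U : Set (Set ℂ)} (hU : IsDomains U) {E : WeierstrassCurve K} (hE : E.IsElliptic)
    {V : HeightOneSpectrum (𝓞 K) → WeierstrassCurve (𝓞 K)} (hV : MinimalModels E V)
    {t t' r r' : ℤ} (ht : PowB U V t r) (hu : PowB U V t' r') : PowB U V (t + t') (r + r') := by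
  obtain ⟨u, huU, f, hf, hf', hf''⟩ := ht
  obtain ⟨u', huU', g, hg, hg', hg''⟩ := hu
  have h1 := (hU.2.1 u huU).2.2.1
  have h1' := (hU.2.1 u' huU').2.2.1
  refine ⟨u ∩ u', hU.2.2 _ huU _ huU', fun s => f s * g s,
    fun s hs => (hf s hs.1).mul (hg s hs.2), fun s hs => ?_, ?_⟩
  · change f s * g s = _
    rw [hf' s hs, hg' s hs, zpow_add₀ (LSeries_ne_zero hE hV hs)]
  · rw [fun_meromorphicOrderAt_mul (hf 1 h1) (hg 1 h1'), hf'', hg'']
    rfl

theorem PowB.neg {U : Set (Set ℂ)} {V : HeightOneSpectrum (𝓞 K) → WeierstrassCurve (𝓞 K)}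
    {t r : ℤ} (ht : PowB U V t r) : PowB U V (-t) (-r) := by
  obtain ⟨u, huU, f, hf, hf', hf''⟩ := ht
  refine ⟨u, huU, fun s => (f s)⁻¹, fun s hs => (hf s hs).inv, fun s hs => ?_, ?_⟩
  · change (f s)⁻¹ = _
    rw [hf' s hs, zpow_neg]
  · rw [fun_meromorphicOrderAt_inv, hf'']
    rfl

/-- the subgroup of the exponents -/
def bsdGroup {U : Set (Set ℂ)} (hU : IsDomains U) {E : WeierstrassCurve K} (hE : E.IsElliptic)
    {V : HeightOneSpectrum (𝓞 K) → WeierstrassCurve (𝓞 K)} (hV : MinimalModels E V) (r : ℤ) :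
    AddSubgroup ℤ where
  carrier := {t | PowB U V t (t * r)}
  zero_mem' := by
    change PowB U V 0 (0 * r)
    rw [zero_mul]
    exact PowB.zero hU V
  add_mem' := fun {a b} ha hb => by
    change PowB U V (a + b) ((a + b) * r)
    rw [add_mul]
    exact PowB.add hU hE hV ha hb
  neg_mem' := fun {a} ha => by
    change PowB U V (-a) (-a * r)
    rw [neg_mul]
    exact PowB.neg ha

/-- the exponents: `gcd` -/
theorem powB_one_of {U : Set (Set ℂ)} (hU : IsDomains U) {E : WeierstrassCurve K}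
    (hE : E.IsElliptic) {V : HeightOneSpectrum (𝓞 K) → WeierstrassCurve (𝓞 K)}
    (hV : MinimalModels E V) (r : ℤ) {D : Set ℕ} (hD : ∀ g : ℕ, (∀ d ∈ D, g ∣ d) → g = 1)
    (h : ∀ d ∈ D, PowB U V (d : ℤ) (d * r)) : PowB U V 1 r := by
  obtain ⟨g, hg⟩ := Int.subgroup_cyclic (bsdGroup hU hE hV r)
  rw [← AddSubgroup.zmultiples_eq_closure] at hg
  have h1 : g.natAbs = 1 := by
    apply hD
    intro d hd
    have h2 : (d : ℤ) ∈ bsdGroup hU hE hV r := h d hd
    rw [hg, Int.mem_zmultiples_iff] at h2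
    rwa [← Int.natCast_dvd_natCast, Int.natCast_natAbs, abs_dvd]
  have h3 : (1 : ℤ) ∈ bsdGroup hU hE hV r := by
    rw [hg, Int.mem_zmultiples_iff]
    rcases Int.natAbs_eq g with h4 | h4
    · rw [h4, h1]; norm_num
    · rw [h4, h1]; norm_num
  have h4 : PowB U V 1 (1 * r) := h3
  rwa [one_mul] at h4

/-- the identity theorem -/
theorem order_of_power {U : Set (Set ℂ)} (hU : IsDomains U)
    {V : HeightOneSpectrum (𝓞 K) → WeierstrassCurve (𝓞 K)} {m : ℕ} (hm : m ≠ 0) {r : ℤ}
    (h : PowB U V (m : ℤ) (m * r)) {u : Set ℂ} (hu : u ∈ U) {f : ℂ → ℂ} (hf : MeromorphicOn f u)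
    (hf' : ∀ s : ℂ, 3 / 2 < s.re → f s = LS V s) : meromorphicOrderAt f 1 = (r : WithTop ℤ) := by
  obtain ⟨u', hu', g, hg, hg', hg''⟩ := h
  obtain ⟨-, hpre, h1, hhalf⟩ := hU.2.1 _ (hU.2.2 _ hu _ hu')
  have hconn : IsConnected (u ∩ u') := ⟨⟨1, h1⟩, hpre⟩
  have hd : MeromorphicOn (fun s => f s ^ m - g s) (u ∩ u') := fun s hs =>
    ((hf s hs.1).fun_pow m).fun_sub (hg s hs.2)
  have hopen : IsOpen {s : ℂ | 3 / 2 < s.re} := isOpen_lt continuous_const Complex.continuous_re
  have h2 : meromorphicOrderAt (fun s => f s ^ m - g s) 2 = ⊤ := by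
    rw [meromorphicOrderAt_eq_top_iff]
    have h2' : ({s : ℂ | 3 / 2 < s.re} : Set ℂ) ∈ 𝓝 (2 : ℂ) :=
      hopen.mem_nhds (by change (3 / 2 : ℝ) < (2 : ℂ).re; norm_num)
    filter_upwards [mem_nhdsWithin_of_mem_nhds h2'] with s hs
    rw [hf' s hs, hg' s hs, zpow_natCast, sub_self]
  have h3 : meromorphicOrderAt (fun s => f s ^ m - g s) 1 = ⊤ := by
    by_contra h4
    have h5 := (hd.exists_meromorphicOrderAt_ne_top_iff_forall hconn).1 ⟨⟨1, h1⟩, h4⟩
    exact h5 ⟨2, hhalf 2 (by norm_num)⟩ h2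
  rw [meromorphicOrderAt_eq_top_iff] at h3
  have h6 : meromorphicOrderAt (fun s => f s ^ m) 1 = ((m * r : ℤ) : WithTop ℤ) := by
    rw [← hg'']
    refine meromorphicOrderAt_congr ?_
    filter_upwards [h3] with s hs
    exact sub_eq_zero.1 hs
  rw [fun_meromorphicOrderAt_pow (hf 1 h1.1)] at h6
  generalize meromorphicOrderAt f 1 = x at h6
  cases x with
  | top =>
    exfalso
    have h7 : ((m : WithTop ℤ)) * ⊤ = ⊤ := WithTop.mul_top (by exact_mod_cast hm)
    rw [h7] at h6
    exact WithTop.top_ne_coe h6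
  | coe x =>
    have h7 : (m : ℤ) * x = m * r := by exact_mod_cast h6
    have h8 : (m : ℤ) ≠ 0 := by exact_mod_cast hm
    rw [mul_left_cancel₀ h8 h7]

/-- the same for all minimal models -/
def AllB (U : Set (Set ℂ)) (E : WeierstrassCurve K) (t r : ℤ) : Prop :=
  ∀ V : HeightOneSpectrum (𝓞 K) → WeierstrassCurve (𝓞 K), MinimalModels E V → PowB U V t r

theorem rk_baseChange (E : WeierstrassCurve K) : rk (E.baseChange K) = rk E := by
  have h : E.baseChange K = E := by
    change E.map (algebraMap K K) = E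
    rw [Algebra.algebraMap_self, WeierstrassCurve.map_id]
  rw [h]

/-- **One step.** -/
theorem bsd_step {U : Set (Set ℂ)} (hU : IsDomains U) {E : WeierstrassCurve K} (hE : E.IsElliptic)
    (p : ℕ) [hp : Fact p.Prime] {T : Set ℕ} (hpr : ∀ l ∈ T, l.Prime) (hinf : T.Infinite) (t : ℤ)
    (h : ∀ (F : Type) [Field F] [NumberField F] [Algebra K F], IsRadical T p K F →
      (Module.finrank K F = p ∨ Module.finrank K F = p ^ 2) →
      AllB U (E.map (algebraMap K F)) t (t * rk (E.map (algebraMap K F)))) :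
    AllB U E ((p : ℤ) * t) ((p : ℤ) * t * rk E) := by
  classical
  intro V₀ hV₀
  obtain ⟨ι, _, X, n, hdeg, hrad, hrel⟩ := exists_relation K p hpr hinf
  have hEj : ∀ j, (E.map (algebraMap K (X j).F)).IsElliptic := fun j => inferInstance
  choose V hV using fun j => exists_minimalModels (E.map (algebraMap K (X j).F)) (hEj j)
  obtain ⟨S, hS⟩ := LS_pow (m := (p : ℤ)) hrel hE hV₀ hV
  choose u huU f hf hf' hf'' using fun j => h (X j).F (hrad j) (hdeg j) (V j) (hV j)
  obtain ⟨u₀, hu₀, hsub⟩ := hU.inter_fin huU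
  have h1 := (hU.2.1 u₀ hu₀).2.2.1
  have hrk : ∑ j, n j * (rk (E.map (algebraMap K (X j).F)) : ℤ) = (p : ℤ) * rk E := by
    have h2 := rank_relation hrel hE
    have h3 : (Module.finrank ℤ (E.baseChange K).toAffine.Point : ℤ) = (rk E : ℤ) := by
      rw [← rk_baseChange E]
      rfl
    rw [h3] at h2
    exact h2
  have hR := Rfun_meromorphic n p V₀ V S
  refine ⟨u₀, hu₀, fun s => (Rfun n p V₀ V S s) ^ t * ∏ j, (f j s) ^ (n j),
    fun s hs => ?_, fun s hs => ?_, ?_⟩
  · refine MeromorphicAt.fun_mul ?_ (MeromorphicAt.fun_prod fun j _ => ?_)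
    · exact MeromorphicAt.fun_zpow (hR s (Set.mem_univ s)) t
    · exact MeromorphicAt.fun_zpow (hf j s (hsub j hs)) (n j)
  · rw [zpow_mul, hS s hs, mul_zpow]
    change _ * (∏ j, (f j s) ^ (n j)) = _
    congr 1
    rw [← Finset.prod_zpow]
    refine Finset.prod_congr rfl fun j _ => ?_
    rw [hf' j s hs, ← zpow_mul, ← zpow_mul, mul_comm]
  · have hm : ∀ j, MeromorphicAt (f j) 1 := fun j => hf j 1 (hsub j h1)
    have hR1 : MeromorphicAt (Rfun n p V₀ V S) 1 := hR 1 (Set.mem_univ _)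
    rw [fun_meromorphicOrderAt_mul (hR1.fun_zpow t)
      (MeromorphicAt.fun_prod fun j _ => (hm j).fun_zpow (n j)), fun_meromorphicOrderAt_zpow hR1,
      Rfun_order, mul_zero, zero_add]
    have h4 : meromorphicOrderAt (fun s => ∏ j, (f j s) ^ (n j)) 1 =
        ∑ j, meromorphicOrderAt (fun s => (f j s) ^ (n j)) 1 := by
      rw [← meromorphicOrderAt_prod fun j _ => (hm j).fun_zpow (n j)]
      congr 1
      ext s
      rw [Finset.prod_apply]
    rw [h4]
    have h5 : ∀ j, meromorphicOrderAt (fun s => (f j s) ^ (n j)) 1 =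
        ((n j * (t * rk (E.map (algebraMap K (X j).F))) : ℤ) : WithTop ℤ) := by
      intro j
      rw [fun_meromorphicOrderAt_zpow (hm j), hf'' j]
      rfl
    rw [Finset.sum_congr rfl fun j _ => h5 j, ← WithTop.coe_sum]
    congr 1
    have h6 : (p : ℤ) * t * rk E = t * ((p : ℤ) * rk E) := by ring
    rw [h6, ← hrk, Finset.mul_sum]
    exact Finset.sum_congr rfl fun j _ => by ring

/-- **The power law.** -/
theorem bsd_power_law {U : Set (Set ℂ)} (hU : IsDomains U) {E : WeierstrassCurve K}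
    (hE : E.IsElliptic) {M : ℕ}
    (h : ∀ (F : Type) [Field F] [NumberField F] [Algebra K F], M ∣ Module.finrank K F →
      AllB U (E.map (algebraMap K F)) 1 (rk (E.map (algebraMap K F)))) (c : ℕ) :
    ∀ (F : Type) [Field F] [NumberField F] [Algebra K F], M ∣ Module.finrank K F * c →
      AllB U (E.map (algebraMap K F)) c (c * rk (E.map (algebraMap K F))) := by
  classical
  induction c using Nat.strong_induction_on with
  | _ c ih =>
    intro F _ _ _ hM
    rcases Nat.eq_zero_or_pos c with rfl | hc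
    · intro V _
      rw [Nat.cast_zero, zero_mul]
      exact PowB.zero hU V
    rcases Nat.eq_or_lt_of_le (Nat.succ_le_of_lt hc) with h1 | h1
    · have hc1 : c = 1 := h1.symm
      subst hc1
      rw [mul_one] at hM
      rw [Nat.cast_one, one_mul]
      exact h F hM
    · obtain ⟨p, hp, c', rfl⟩ := Nat.exists_prime_and_dvd (show c ≠ 1 by omega)
      have hpf : Fact p.Prime := ⟨hp⟩
      have hc' : 0 < c' := Nat.pos_of_mul_pos_left hc
      have hlt : c' < p * c' := by
        have := hp.two_le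
        nlinarith
      have hEF : (E.map (algebraMap K F)).IsElliptic := inferInstance
      have hinf : {l : ℕ | l.Prime}.Infinite := Nat.infinite_setOfPred_prime
      have h2 := bsd_step hU hEF p (T := {l : ℕ | l.Prime}) (fun l hl => hl) hinf (c' : ℤ) (by
        intro F' _ _ _ _ hdeg
        let _ : Algebra K F' := ((algebraMap F F').comp (algebraMap K F)).toAlgebra
        have : IsScalarTower K F F' := IsScalarTower.of_algebraMap_eq fun x => rfl
        have h3 : M ∣ Module.finrank K F' * c' := by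
          rw [← Module.finrank_mul_finrank K F F']
          rcases hdeg with h4 | h4
          · rw [h4, mul_assoc]
            exact hM
          · rw [h4, sq, mul_assoc, mul_assoc, mul_left_comm]
            exact hM.mul_left p
        have h5 := ih c' hlt F' h3
        rw [WeierstrassCurve.map_map]
        exact h5)
      have h6 : ((p * c' : ℕ) : ℤ) = (p : ℤ) * (c' : ℤ) := by push_cast; rfl
      rw [h6]
      exact h2

/-- **The power law in radical extensions.** -/
theorem bsd_power_law_radical {U : Set (Set ℂ)} (hU : IsDomains U) {E : WeierstrassCurve K}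
    (hE : E.IsElliptic) (p : ℕ)
    [hp : Fact p.Prime] {T : Set ℕ} (hpr : ∀ l ∈ T, l.Prime) (hinf : T.Infinite) (k : ℕ)
    (h : ∀ (F : Type) [Field F] [NumberField F] [Algebra K F], IsRadical T p K F →
      p ^ k ∣ Module.finrank K F →
      AllB U (E.map (algebraMap K F)) 1 (rk (E.map (algebraMap K F)))) (t : ℕ) :
    ∀ (F : Type) [Field F] [NumberField F] [Algebra K F], IsRadical T p K F →
      p ^ k ∣ Module.finrank K F * p ^ t →
      AllB U (E.map (algebraMap K F)) ((p ^ t : ℕ) : ℤ)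
        (((p ^ t : ℕ) : ℤ) * rk (E.map (algebraMap K F))) := by
  classical
  induction t with
  | zero =>
    intro F _ _ _ hr hM
    rw [pow_zero, mul_one] at hM
    rw [pow_zero, Nat.cast_one, one_mul]
    exact h F hr hM
  | succ t ih =>
    intro F _ _ _ hr hM
    have hEF : (E.map (algebraMap K F)).IsElliptic := inferInstance
    have h2 := bsd_step hU hEF p hpr hinf ((p ^ t : ℕ) : ℤ) (by
      intro F' _ _ _ hr' hdeg
      let _ : Algebra K F' := ((algebraMap F F').comp (algebraMap K F)).toAlgebra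
      have : IsScalarTower K F F' := IsScalarTower.of_algebraMap_eq fun x => rfl
      have h3 : p ^ k ∣ Module.finrank K F' * p ^ t := by
        rw [← Module.finrank_mul_finrank K F F']
        rw [pow_succ'] at hM
        rcases hdeg with h4 | h4
        · rw [h4, mul_assoc]
          exact hM
        · rw [h4, sq, mul_assoc, mul_assoc, mul_left_comm]
          exact hM.mul_left p
      have h5 := ih F' (hr.trans hr') h3
      rw [WeierstrassCurve.map_map]
      exact h5)
    have h6 : ((p ^ (t + 1) : ℕ) : ℤ) = (p : ℤ) * ((p ^ t : ℕ) : ℤ) := by push_cast; ring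
    rw [h6]
    exact h2

end

end Pool.Agent.Q5.BR
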