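import Pool.Agent.Q5.BR.Model

/-! The Euler product of an elliptic curve over a number field. -/

set_option autoImplicit false
set_option linter.unusedSectionVars false

namespace Pool.Agent.Q5.BR

open NumberField IsDedekindDomain Filter Pool.Agent.H341R2 Pool.Agent.H341R2.EC
  Pool.Agent.H921R2.TatePole
open Pool.Agent.TH322.BC.Edge (MinimalModels)

open Pool.Agent.TH322.BC.Edge renaming LSeries → LS

section
variable {F : Type} [Field F] [NumberField F]

/-- `a_w q_w^{-s} - ε_w q_w^{1 - 2s}` -/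
noncomputable def zz (V : HeightOneSpectrum (𝓞 F) → WeierstrassCurve (𝓞 F))
    (w : HeightOneSpectrum (𝓞 F)) (s : ℂ) : ℂ := by
  classical
  exact (((nm w : ℤ) - (aff (red w (V w)) : ℤ) : ℤ) : ℂ) * ((nm w : ℕ) : ℂ) ^ (-s) -
    (if (V w).Δ ∈ w.asIdeal then (0 : ℂ) else 1) * ((nm w : ℕ) : ℂ) ^ (1 - 2 * s)

theorem LSeries_eq (V : HeightOneSpectrum (𝓞 F) → WeierstrassCurve (𝓞 F)) (s : ℂ) :
    LS V s = ∏' w : HeightOneSpectrum (𝓞 F), (1 - zz V w s)⁻¹ := by
  classical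
  unfold Pool.Agent.TH322.BC.Edge.LSeries
  refine tprod_congr fun w => ?_
  congr 1
  unfold zz
  rw [sub_sub_eq_add_sub]
  have h : (Nat.card {p : (𝓞 F ⧸ w.asIdeal) × (𝓞 F ⧸ w.asIdeal) //
            p.2 ^ 2 + Ideal.Quotient.mk w.asIdeal (V w).a₁ * p.1 * p.2
              + Ideal.Quotient.mk w.asIdeal (V w).a₃ * p.2
            = p.1 ^ 3 + Ideal.Quotient.mk w.asIdeal (V w).a₂ * p.1 ^ 2
              + Ideal.Quotient.mk w.asIdeal (V w).a₄ * p.1
              + Ideal.Quotient.mk w.asIdeal (V w).a₆}) = aff (red w (V w)) := rfl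
  rw [h]
  have h2 : Ideal.absNorm w.asIdeal = nm w := rfl
  rw [h2]
  split_ifs <;> ring

theorem one_le_nm (w : HeightOneSpectrum (𝓞 F)) : (1 : ℝ) ≤ nm w := by
  have := two_le_nm w
  exact_mod_cast (by omega : 1 ≤ nm w)

theorem norm_cpow' (w : HeightOneSpectrum (𝓞 F)) (s : ℂ) :
    ‖((nm w : ℕ) : ℂ) ^ s‖ = (nm w : ℝ) ^ s.re :=
  Complex.norm_natCast_cpow_of_pos (by have := two_le_nm w; omega) s

theorem norm_zz_le (V : HeightOneSpectrum (𝓞 F) → WeierstrassCurve (𝓞 F))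
    (w : HeightOneSpectrum (𝓞 F)) (s : ℂ) :
    ‖zz V w s‖ ≤ |(nm w : ℝ) - aff (red w (V w))| * (nm w : ℝ) ^ (-s.re) +
      (nm w : ℝ) ^ (1 - 2 * s.re) := by
  classical
  unfold zz
  refine (norm_sub_le _ _).trans (add_le_add (le_of_eq ?_) ?_)
  · rw [norm_mul, norm_cpow', Complex.neg_re]
    congr 1
    rw [show (((nm w : ℤ) - (aff (red w (V w)) : ℤ) : ℤ) : ℂ) =
      (((nm w : ℝ) - aff (red w (V w)) : ℝ) : ℂ) by push_cast; ring, Complex.norm_real,
      Real.norm_eq_abs]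
  · rw [norm_mul, norm_cpow']
    have h1 : (1 - 2 * s : ℂ).re = 1 - 2 * s.re := by simp
    rw [h1]
    refine mul_le_of_le_one_left (by positivity) ?_
    split_ifs <;> simp

theorem zz_lt_one (V : HeightOneSpectrum (𝓞 F) → WeierstrassCurve (𝓞 F))
    (w : HeightOneSpectrum (𝓞 F)) {s : ℂ} (hs : 3 / 2 < s.re) : ‖zz V w s‖ < 1 := by
  refine (norm_zz_le V w s).trans_lt ?_
  have hq := one_le_nm w
  have hq2 : (2 : ℝ) ≤ nm w := by exact_mod_cast two_le_nm w
  have hq0 : (0 : ℝ) < nm w := by linarith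
  have h1 : |(nm w : ℝ) - aff (red w (V w))| ≤ nm w := by
    have h2 := aff_le (red w (V w))
    rw [card_v] at h2
    have h3 : (aff (red w (V w)) : ℝ) ≤ 2 * nm w := by exact_mod_cast h2
    have h4 : (0 : ℝ) ≤ aff (red w (V w)) := Nat.cast_nonneg _
    rw [abs_le]
    constructor <;> linarith
  set x : ℝ := (nm w : ℝ) ^ (-(1 / 2) : ℝ) with hx
  have hx0 : 0 < x := Real.rpow_pos_of_pos hq0 _
  have hx2 : x ^ 2 = (nm w : ℝ)⁻¹ := by
    rw [hx, ← Real.rpow_natCast, ← Real.rpow_mul hq0.le]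
    norm_num
    rw [Real.rpow_neg_one]
  have hx2' : x ^ 2 ≤ 1 / 2 := by
    rw [hx2, one_div]
    exact inv_anti₀ (by norm_num) hq2
  have h5 : (nm w : ℝ) * (nm w : ℝ) ^ (-s.re) ≤ x := by
    have h6 : (nm w : ℝ) * (nm w : ℝ) ^ (-s.re) = (nm w : ℝ) ^ (1 + -s.re) := by
      rw [Real.rpow_add hq0, Real.rpow_one]
    rw [h6, hx]
    exact Real.rpow_le_rpow_of_exponent_le hq (by linarith)
  have h7 : (nm w : ℝ) ^ (1 - 2 * s.re) ≤ x ^ 4 := by
    have h8 : x ^ 4 = (nm w : ℝ) ^ (-2 : ℝ) := by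
      rw [hx, ← Real.rpow_natCast, ← Real.rpow_mul hq0.le]
      norm_num
    rw [h8]
    exact Real.rpow_le_rpow_of_exponent_le hq (by linarith)
  have h9 : |(nm w : ℝ) - aff (red w (V w))| * (nm w : ℝ) ^ (-s.re) ≤ x :=
    (mul_le_mul_of_nonneg_right h1 (by positivity)).trans h5
  have hx34 : x < 3 / 4 := by nlinarith
  have hx4 : x ^ 4 ≤ 1 / 4 := by nlinarith [sq_nonneg x]
  linarith

theorem one_sub_zz_ne (V : HeightOneSpectrum (𝓞 F) → WeierstrassCurve (𝓞 F))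
    (w : HeightOneSpectrum (𝓞 F)) {s : ℂ} (hs : 3 / 2 < s.re) : 1 - zz V w s ≠ 0 := by
  intro h
  have h1 := zz_lt_one V w hs
  rw [← sub_eq_zero.1 h, norm_one] at h1
  exact lt_irrefl _ h1

/-- the primes of good reduction prime to `6` -/
theorem good_of_model {E : WeierstrassCurve F}
    {V : HeightOneSpectrum (𝓞 F) → WeierstrassCurve (𝓞 F)} (hV : MinimalModels E V)
    {W : WeierstrassCurve (𝓞 F)} (hW : IsModel E W) {w : HeightOneSpectrum (𝓞 F)}
    (h : 6 * W.Δ ∉ w.asIdeal) :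
    (6 : 𝓞 F) ∉ w.asIdeal ∧ W.Δ ∉ w.asIdeal ∧ (V w).Δ ∉ w.asIdeal := by
  have h1 : W.Δ ∉ w.asIdeal := fun h2 => h (w.asIdeal.mul_mem_left _ h2)
  exact ⟨fun h2 => h (w.asIdeal.mul_mem_right _ h2), h1, minimal_good (hV w) hW h1⟩

theorem summable_zz {E : WeierstrassCurve F} (hE : E.IsElliptic)
    {V : HeightOneSpectrum (𝓞 F) → WeierstrassCurve (𝓞 F)} (hV : MinimalModels E V) {s : ℂ}
    (hs : 3 / 2 < s.re) : Summable fun w => zz V w s := by
  obtain ⟨W, hW⟩ := exists_model E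
  have h0 : 6 * W.Δ ≠ 0 := mul_ne_zero (by norm_num) (model_Δ hE hW)
  refine Summable.of_norm_bounded_eventually
    (g := fun w => 3 * (nm w : ℝ) ^ (-(s.re - 1 / 2)))
    ((nm_summable (K := F) (x := s.re - 1 / 2) (by linarith)).mul_left 3) ?_
  filter_upwards [(finite_mem h0).compl_mem_cofinite] with w hw
  obtain ⟨h6, _, hVw⟩ := good_of_model hV hW (w := w) hw
  refine (norm_zz_le V w s).trans ?_
  have hq := one_le_nm w
  have hq0 : (0 : ℝ) < nm w := by linarith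
  have h6' : (6 : 𝓞 F ⧸ w.asIdeal) ≠ 0 := by
    have := mk_ne h6
    rwa [map_ofNat] at this
  have hΔ : (red w (V w)).Δ ≠ 0 := by
    unfold red
    rw [WeierstrassCurve.map_Δ]
    exact mk_ne hVw
  have h1 := hasse h6' hΔ
  rw [card_v] at h1
  have h2 : 2 * Real.sqrt (nm w) * (nm w : ℝ) ^ (-s.re) = 2 * (nm w : ℝ) ^ (-(s.re - 1 / 2)) := by
    rw [Real.sqrt_eq_rpow, mul_assoc, ← Real.rpow_add hq0]
    congr 2
    ring
  have h3 : (nm w : ℝ) ^ (1 - 2 * s.re) ≤ (nm w : ℝ) ^ (-(s.re - 1 / 2)) :=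
    Real.rpow_le_rpow_of_exponent_le hq (by linarith)
  have h4 := mul_le_mul_of_nonneg_right h1 (by positivity : (0 : ℝ) ≤ (nm w : ℝ) ^ (-s.re))
  rw [h2] at h4
  linarith

/-- the logarithm of the Euler factor -/
noncomputable def ell (V : HeightOneSpectrum (𝓞 F) → WeierstrassCurve (𝓞 F))
    (w : HeightOneSpectrum (𝓞 F)) (s : ℂ) : ℂ := -Complex.log (1 - zz V w s)

theorem exp_ell (V : HeightOneSpectrum (𝓞 F) → WeierstrassCurve (𝓞 F))
    (w : HeightOneSpectrum (𝓞 F)) {s : ℂ} (hs : 3 / 2 < s.re) :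
    Complex.exp (ell V w s) = (1 - zz V w s)⁻¹ := by
  unfold ell
  rw [Complex.exp_neg, Complex.exp_log (one_sub_zz_ne V w hs)]

theorem summable_ell {E : WeierstrassCurve F} (hE : E.IsElliptic)
    {V : HeightOneSpectrum (𝓞 F) → WeierstrassCurve (𝓞 F)} (hV : MinimalModels E V) {s : ℂ}
    (hs : 3 / 2 < s.re) : Summable fun w => ell V w s :=
  (summable_zz hE hV hs).clog_one_sub.neg

theorem LSeries_exp {E : WeierstrassCurve F} (hE : E.IsElliptic)
    {V : HeightOneSpectrum (𝓞 F) → WeierstrassCurve (𝓞 F)} (hV : MinimalModels E V) {s : ℂ}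
    (hs : 3 / 2 < s.re) : LS V s = Complex.exp (∑' w, ell V w s) := by
  rw [LSeries_eq, ← (summable_ell hE hV hs).hasSum.cexp.tprod_eq]
  refine tprod_congr fun w => ?_
  exact (exp_ell V w hs).symm

theorem LSeries_ne_zero {E : WeierstrassCurve F} (hE : E.IsElliptic)
    {V : HeightOneSpectrum (𝓞 F) → WeierstrassCurve (𝓞 F)} (hV : MinimalModels E V) {s : ℂ}
    (hs : 3 / 2 < s.re) : LS V s ≠ 0 := by
  rw [LSeries_exp hE hV hs]
  exact Complex.exp_ne_zero _

theorem differentiable_zz (V : HeightOneSpectrum (𝓞 F) → WeierstrassCurve (𝓞 F))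
    (w : HeightOneSpectrum (𝓞 F)) : Differentiable ℂ (zz V w) := by
  have h0 : ((nm w : ℕ) : ℂ) ≠ 0 := by
    have := two_le_nm w
    exact_mod_cast (by omega : nm w ≠ 0)
  intro s
  unfold zz
  refine DifferentiableAt.sub (DifferentiableAt.const_mul ?_ _) (DifferentiableAt.const_mul ?_ _)
  · exact (differentiableAt_id.neg).const_cpow (Or.inl h0)
  · exact ((differentiableAt_const _).sub (differentiableAt_id.const_mul _)).const_cpow (Or.inl h0)

/-- the Euler factor is meromorphic -/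
theorem meromorphic_fac (V : HeightOneSpectrum (𝓞 F) → WeierstrassCurve (𝓞 F))
    (w : HeightOneSpectrum (𝓞 F)) (s : ℂ) : MeromorphicAt (fun s => (1 - zz V w s)⁻¹) s :=
  (((differentiable_const 1).sub (differentiable_zz V w)).analyticAt s).meromorphicAt.inv

end

end Pool.Agent.Q5.BR
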