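import Pool.Agent.W353.NF.Act

/-! The number of the embeddings of `F ⊇ K` fixed by the powers of a Frobenius element of `K` at `v`, in
terms of the residue degrees of the primes of `F` above `v`. -/

set_option autoImplicit false

namespace Pool.Agent.Q5.BR

open NumberField IsDedekindDomain Filter Pool.Agent.W401.Cheb Pool.Agent.W353.NF
open scoped Pointwise

section
variable {K F : Type} [Field K] [NumberField K] [Field F] [NumberField F] [Algebra K F]

/-- the residue degree over `K` of a prime of `F` -/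
noncomputable def rdeg (K : Type) {F : Type} [Field K] [NumberField K] [Field F] [NumberField F]
    [Algebra K F] (w : HeightOneSpectrum (𝓞 F)) : ℕ :=
  Ideal.inertiaDeg' (w.under (𝓞 K)).asIdeal w.asIdeal

theorem under_eq {w : HeightOneSpectrum (𝓞 F)} {v : HeightOneSpectrum (𝓞 K)}
    (h : w.under (𝓞 K) = v) : w.asIdeal.comap (algebraMap (𝓞 K) (𝓞 F)) = v.asIdeal := by
  rw [← h]
  rfl

/-- the norm of a prime of `F` -/
theorem absNorm_rdeg (w : HeightOneSpectrum (𝓞 F)) :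
    Ideal.absNorm w.asIdeal = Ideal.absNorm (w.under (𝓞 K)).asIdeal ^ rdeg K w := by
  have : w.asIdeal.LiesOver (w.under (𝓞 K)).asIdeal := ⟨rfl⟩
  exact Ideal.absNorm_eq_pow_inertiaDeg'_of_liesOver w.asIdeal (w.under (𝓞 K)).asIdeal
    (w.under (𝓞 K)).isPrime (w.under (𝓞 K)).ne_bot

theorem rdeg_pos (w : HeightOneSpectrum (𝓞 F)) : 0 < rdeg K w := by
  have : w.asIdeal.LiesOver (w.under (𝓞 K)).asIdeal := ⟨rfl⟩
  have h2 : (w.under (𝓞 K)).asIdeal.IsMaximal := (w.under (𝓞 K)).isMaximal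
  exact Ideal.inertiaDeg'_pos _ _

/-- a prime of `F` above `v` is given by an embedding -/
theorem exists_emb' {v : HeightOneSpectrum (𝓞 K)} {Q : Ideal (𝓞 (AlgebraicClosure K))}
    (hQm : Q.IsMaximal)
    (hQv : Q.comap (algebraMap (𝓞 K) (𝓞 (AlgebraicClosure K))) = v.asIdeal)
    (w : HeightOneSpectrum (𝓞 F)) (hw : w.under (𝓞 K) = v) :
    ∃ i : F →ₐ[K] AlgebraicClosure K, ∀ a : 𝓞 F, oi i a ∈ Q ↔ a ∈ w.asIdeal := by
  classical
  have : SMulCommClass (GK K) (𝓞 K) (𝓞 (AlgebraicClosure K)) := Pool.Agent.W401.Frob.smulComm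
  have : Algebra.IsInvariant (𝓞 K) (𝓞 (AlgebraicClosure K)) (GK K) := Pool.Agent.W401.Frob.isInv
  let _ : TopologicalSpace (𝓞 (AlgebraicClosure K)) := ⊥
  have : DiscreteTopology (𝓞 (AlgebraicClosure K)) := ⟨rfl⟩
  have : ContinuousSMul (GK K) (𝓞 (AlgebraicClosure K)) := by
    rw [continuousSMul_iff_stabilizer_isOpen]
    intro x
    have h1 := stabilizer_isOpen_of_isIntegral (K := K) (x : AlgebraicClosure K)
    convert h1 using 2
    ext g
    rw [MulAction.mem_stabilizer_iff, MulAction.mem_stabilizer_iff]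
    constructor
    · intro h
      exact congrArg (fun z : (𝓞 (AlgebraicClosure K)) => (z : AlgebraicClosure K)) h
    · intro h
      exact RingOfIntegers.ext h
  let i0 : F →ₐ[K] AlgebraicClosure K := IsAlgClosed.lift
  have hi0 : Function.Injective (oi i0) := by
    intro a b hab
    apply RingOfIntegers.ext
    exact (i0 : F →+* AlgebraicClosure K).injective
      (congrArg (fun z : 𝓞 (AlgebraicClosure K) => (z : AlgebraicClosure K)) hab)
  have hkm : w.asIdeal.IsMaximal := w.isMaximal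
  obtain ⟨Q', hQm', hQ'⟩ : ∃ Q' : Ideal (𝓞 (AlgebraicClosure K)), Q'.IsMaximal ∧
      Q'.comap (oi i0) = w.asIdeal := by
    let _ : Algebra (𝓞 F) (𝓞 (AlgebraicClosure K)) := (oi i0).toAlgebra
    have hint : Algebra.IsIntegral (𝓞 F) (𝓞 (AlgebraicClosure K)) := by
      refine ⟨fun x => ?_⟩
      have hx : IsIntegral ℤ x := Algebra.IsIntegral.isIntegral x
      exact hx.tower_top
    exact Ideal.exists_ideal_over_maximal_of_isIntegral w.asIdeal (by
      have h1 : RingHom.ker (algebraMap (𝓞 F) (𝓞 (AlgebraicClosure K))) = ⊥ :=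
        (RingHom.injective_iff_ker_eq_bot _).1 hi0
      rw [h1]
      exact bot_le)
  have hund : Q'.comap (algebraMap (𝓞 K) (𝓞 (AlgebraicClosure K))) =
      Q.comap (algebraMap (𝓞 K) (𝓞 (AlgebraicClosure K))) := by
    rw [hQv, ← under_eq hw]
    ext a
    rw [Ideal.mem_comap, Ideal.mem_comap, ← hQ', Ideal.mem_comap, oi_alg]
  obtain ⟨g, hg⟩ := Algebra.IsInvariant.exists_smul_of_under_eq_of_profinite (A := 𝓞 K)
    (G := GK K) Q' Q hund
  refine ⟨(g : AlgebraicClosure K →ₐ[K] AlgebraicClosure K).comp i0, fun a => ?_⟩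
  rw [← smul_oi, hg]
  have h1 : g • oi i0 a ∈ g • Q' ↔ oi i0 a ∈ Q' := by
    rw [Ideal.mem_pointwise_smul_iff_inv_smul_mem, inv_smul_smul]
  rw [h1, ← Ideal.mem_comap, hQ']

/-- the property of `e` used for the separation of the embeddings -/
def Sep (K F : Type) [Field K] [NumberField K] [Field F] [NumberField F] [Algebra K F]
    (e : 𝓞 K) : Prop :=
  ∀ Q : Ideal (𝓞 (AlgebraicClosure K)),
      algebraMap (𝓞 K) (𝓞 (AlgebraicClosure K)) e ∉ Q →
      ∀ i j : F →ₐ[K] AlgebraicClosure K, (∀ a : 𝓞 F, oi i a - oi j a ∈ Q) → i = j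

theorem powers_smul (σ : GK K) (q : ℕ) (Q : Ideal (𝓞 (AlgebraicClosure K)))
    (h : ∀ x : (𝓞 (AlgebraicClosure K)), σ • x - x ^ q ∈ Q) (n : ℕ)
    (x : 𝓞 (AlgebraicClosure K)) :
    (σ ^ n) • x - x ^ (q ^ n) ∈ Q := by
  induction n generalizing x with
  | zero => simp
  | succ n ih =>
    have h1 : (σ ^ (n + 1)) • x = (σ ^ n) • (σ • x) := by rw [pow_succ, mul_smul]
    have h2 := ih (σ • x)
    have h3 : (σ • x) ^ q ^ n - (x ^ q) ^ q ^ n ∈ Q :=
      Q.mem_of_dvd (sub_dvd_pow_sub_pow _ _ _) (h x)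
    have h4 : (σ ^ (n + 1)) • x - x ^ (q ^ (n + 1)) =
        ((σ ^ n) • (σ • x) - (σ • x) ^ q ^ n) + ((σ • x) ^ q ^ n - (x ^ q) ^ q ^ n) := by
      rw [h1, ← pow_mul, ← pow_succ']
      ring
    rw [h4]
    exact Q.add_mem h2 h3

/-- **The count of the embeddings giving a prime.** -/
theorem card_fiber (v : HeightOneSpectrum (𝓞 K)) (e : 𝓞 K) (he : Sep K F e)
    (hev : e ∉ v.asIdeal) (σ : GK K) {Q : Ideal (𝓞 (AlgebraicClosure K))} (hQm : Q.IsMaximal)
    (hQv : Q.comap (algebraMap (𝓞 K) (𝓞 (AlgebraicClosure K))) = v.asIdeal)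
    (hQ : ∀ x : 𝓞 (AlgebraicClosure K), σ • x - x ^ Ideal.absNorm v.asIdeal ∈ Q)
    (w : HeightOneSpectrum (𝓞 F)) (hw : w.under (𝓞 K) = v) (n : ℕ) :
    Nat.card {i : F →ₐ[K] AlgebraicClosure K // (∀ a : 𝓞 F, oi i a ∈ Q ↔ a ∈ w.asIdeal) ∧
      act K F (σ ^ n) i = i} = if rdeg K w ∣ n then rdeg K w else 0 := by
  classical
  subst hw
  set v := w.under (𝓞 K) with hv
  have hwo : w.asIdeal.LiesOver v.asIdeal := ⟨rfl⟩
  have hvm : v.asIdeal.IsMaximal := v.isMaximal
  have hwm : w.asIdeal.IsMaximal := w.isMaximal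
  let _ : Field (𝓞 (AlgebraicClosure K) ⧸ Q) := Ideal.Quotient.field Q
  let _ : Field (𝓞 K ⧸ v.asIdeal) := Ideal.Quotient.field v.asIdeal
  let _ : Field (𝓞 F ⧸ w.asIdeal) := Ideal.Quotient.field w.asIdeal
  have hfk : Finite (𝓞 K ⧸ v.asIdeal) := Ideal.finiteQuotientOfFreeOfNeBot v.asIdeal v.ne_bot
  have hfw : Finite (𝓞 F ⧸ w.asIdeal) := Ideal.finiteQuotientOfFreeOfNeBot w.asIdeal w.ne_bot
  let _ : Fintype (𝓞 K ⧸ v.asIdeal) := Fintype.ofFinite _
  have hQo : Q.LiesOver v.asIdeal := ⟨hQv.symm⟩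
  have hcard : Ideal.absNorm v.asIdeal = Fintype.card (𝓞 K ⧸ v.asIdeal) := by
    rw [Ideal.absNorm_apply, Submodule.cardQuot_apply, Nat.card_eq_fintype_card]
  have hf : Module.finrank (𝓞 K ⧸ v.asIdeal) (𝓞 F ⧸ w.asIdeal) = rdeg K w := by
    unfold rdeg
    rw [Ideal.inertiaDeg'_algebraMap]
  -- the induced homomorphisms
  let red : (F →ₐ[K] AlgebraicClosure K) → 𝓞 F →+* (𝓞 (AlgebraicClosure K) ⧸ Q) := fun i =>
    (Ideal.Quotient.mk Q).comp (oi i)
  have hred : ∀ i a, red i a = Ideal.Quotient.mk Q (oi i a) := fun i a => rfl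
  have hredinj : ∀ i j, (∀ a, red i a = red j a) → i = j := by
    intro i j h
    refine he Q (fun h1 => hev ?_) i j fun a => ?_
    · rw [← hQv]
      exact h1
    · rw [← Ideal.Quotient.mk_eq_mk_iff_sub_mem]
      exact h a
  have hfrob : ∀ n i a, (red i a) ^ (Ideal.absNorm v.asIdeal ^ n) = red (act K F (σ ^ n) i) a := by
    intro n i a
    rw [hred, hred, ← map_pow, Ideal.Quotient.mk_eq_mk_iff_sub_mem, act_apply, ← smul_oi]
    have := Q.neg_mem (powers_smul σ _ Q hQ n (oi i a))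
    rwa [neg_sub] at this
  -- the powers of the Frobenius automorphism of the residue field
  have hpow : ∀ n, (∀ y : 𝓞 F ⧸ w.asIdeal, y ^ (Ideal.absNorm v.asIdeal ^ n) = y) ↔
      rdeg K w ∣ n := by
    intro n
    rw [← hf, ← FiniteField.orderOf_frobeniusAlgEquivOfAlgebraic, orderOf_dvd_iff_pow_eq_one,
      DFunLike.ext_iff]
    refine forall_congr' fun y => ?_
    rw [AlgEquiv.coe_pow, FiniteField.coe_frobeniusAlgEquivOfAlgebraic_iterate, hcard]
    rfl
  have hfix : ∀ n i, (∀ a : 𝓞 F, oi i a ∈ Q ↔ a ∈ w.asIdeal) →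
      (act K F (σ ^ n) i = i ↔ rdeg K w ∣ n) := by
    intro n i hi
    rw [← hpow]
    constructor
    · intro h y
      obtain ⟨a, rfl⟩ := Ideal.Quotient.mk_surjective y
      rw [← map_pow, Ideal.Quotient.mk_eq_mk_iff_sub_mem, ← hi, map_sub, map_pow,
        ← Ideal.Quotient.mk_eq_mk_iff_sub_mem, map_pow, ← hred, hfrob, h]
    · intro h
      refine hredinj _ _ fun a => ?_
      rw [← hfrob, hred, ← map_pow, Ideal.Quotient.mk_eq_mk_iff_sub_mem, ← map_pow, ← map_sub, hi,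
        ← Ideal.Quotient.mk_eq_mk_iff_sub_mem, map_pow]
      exact h _
  -- the homomorphism of the residue fields
  have hlift : ∀ i : {i : F →ₐ[K] AlgebraicClosure K // ∀ a : 𝓞 F, oi i a ∈ Q ↔ a ∈ w.asIdeal},
      ∃ φ : (𝓞 F ⧸ w.asIdeal) →ₐ[𝓞 K ⧸ v.asIdeal] (𝓞 (AlgebraicClosure K) ⧸ Q),
        ∀ a, φ (Ideal.Quotient.mk w.asIdeal a) = red i.1 a := by
    rintro ⟨i, hi⟩
    refine ⟨{ Ideal.Quotient.lift w.asIdeal (red i) (fun a ha => ?_) with
      commutes' := ?_ }, fun a => rfl⟩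
    · rw [hred, Ideal.Quotient.eq_zero_iff_mem, hi]
      exact ha
    · intro r
      obtain ⟨a, rfl⟩ := Ideal.Quotient.mk_surjective r
      change red i (algebraMap (𝓞 K) (𝓞 F) a) = _
      rw [hred, oi_alg]
      rfl
  choose Φ hΦ using hlift
  have hΦinj : Function.Injective Φ := by
    intro i j hij
    apply Subtype.ext
    refine hredinj _ _ fun a => ?_
    rw [← hΦ, ← hΦ, hij]
  have hfd : Module.Finite (𝓞 K ⧸ v.asIdeal) (𝓞 F ⧸ w.asIdeal) := Module.Finite.of_finite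
  have hle : Nat.card {i : F →ₐ[K] AlgebraicClosure K //
      ∀ a : 𝓞 F, oi i a ∈ Q ↔ a ∈ w.asIdeal} ≤ rdeg K w := by
    rw [← hf]
    refine (Nat.card_le_card_of_injective Φ hΦinj).trans ?_
    exact card_algHom_le_finrank _ _ _
  obtain ⟨i0, hi0⟩ := exists_emb' hQm hQv w rfl
  have horb : ∀ n a, oi (act K F (σ ^ n) i0) a ∈ Q ↔ a ∈ w.asIdeal := by
    intro n a
    rw [← hi0, ← Ideal.Quotient.eq_zero_iff_mem, ← hred, ← hfrob, ← Ideal.Quotient.eq_zero_iff_mem,
      ← hred]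
    refine pow_eq_zero_iff (pow_ne_zero _ ?_)
    rw [hcard]
    exact Fintype.card_ne_zero
  have hge : rdeg K w ≤ Nat.card {i : F →ₐ[K] AlgebraicClosure K //
      ∀ a : 𝓞 F, oi i a ∈ Q ↔ a ∈ w.asIdeal} := by
    have hinj : Function.Injective (fun m : Fin (rdeg K w) =>
        (⟨act K F (σ ^ (m : ℕ)) i0, horb m⟩ : {i : F →ₐ[K] AlgebraicClosure K //
          ∀ a : 𝓞 F, oi i a ∈ Q ↔ a ∈ w.asIdeal})) := by
      have key : ∀ m m' : ℕ, m ≤ m' → m' < rdeg K w →
          act K F (σ ^ m) i0 = act K F (σ ^ m') i0 → m = m' := by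
        intro m m' hmm hm' h
        obtain ⟨d, rfl⟩ := Nat.exists_eq_add_of_le hmm
        rw [pow_add, map_mul, Equiv.Perm.mul_apply] at h
        have h1 := (act K F (σ ^ m)).injective h
        have h2 := (hfix d i0 hi0).1 h1.symm
        rcases Nat.eq_zero_or_pos d with h3 | h3
        · rw [h3, add_zero]
        · have := Nat.le_of_dvd h3 h2
          omega
      intro m m' h
      have h1 : act K F (σ ^ (m : ℕ)) i0 = act K F (σ ^ (m' : ℕ)) i0 := congrArg Subtype.val h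
      apply Fin.ext
      rcases le_total (m : ℕ) m' with h2 | h2
      · exact key _ _ h2 m'.2 h1
      · exact (key _ _ h2 m.2 h1.symm).symm
    have := Nat.card_le_card_of_injective _ hinj
    rwa [Nat.card_eq_fintype_card, Fintype.card_fin] at this
  by_cases hn : rdeg K w ∣ n
  · rw [if_pos hn, ← le_antisymm hle hge]
    refine Nat.card_congr (Equiv.subtypeEquivRight fun i => ?_)
    exact ⟨fun h => h.1, fun h => ⟨h, (hfix n i h).2 hn⟩⟩
  · rw [if_neg hn, Nat.card_eq_zero]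
    left
    exact ⟨fun i => hn ((hfix n i.1 i.2.1).1 i.2.2)⟩

end

end Pool.Agent.Q5.BR
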