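import Pool.Agent.Q5.BR.Rel
import Pool.Agent.TH322.BC.Defs
import Pool.Agent.H921R2.TatePole.Dedekind

/-! Models of an elliptic curve over extension fields, and its points over the residue fields. -/

set_option autoImplicit false
set_option linter.unusedSectionVars false

namespace Pool.Agent.Q5.BR

open NumberField IsDedekindDomain Filter Pool.Agent.H341R2 Pool.Agent.H341R2.EC
  Pool.Agent.H921R2.TatePole
open Pool.Agent.TH322.BC.Edge (MinimalModels LSeries)

section
variable {K : Type} [Field K] [NumberField K]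

theorem exists_model (E : WeierstrassCurve K) :
    ∃ W : WeierstrassCurve (𝓞 K), IsModel E W := by
  classical
  obtain ⟨⟨b, hb⟩, h⟩ := IsLocalization.exist_integer_multiples_of_finset
    (nonZeroDivisors (𝓞 K)) ({E.a₁, E.a₂, E.a₃, E.a₄, E.a₆} : Finset K)
  have hb0 : b ≠ 0 := nonZeroDivisors.ne_zero hb
  have hbK : (algebraMap (𝓞 K) K b) ≠ 0 := by
    rwa [Ne, FaithfulSMul.algebraMap_eq_zero_iff]
  obtain ⟨x₁, h₁⟩ := h E.a₁ (by simp)
  obtain ⟨x₂, h₂⟩ := h E.a₂ (by simp)
  obtain ⟨x₃, h₃⟩ := h E.a₃ (by simp)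
  obtain ⟨x₄, h₄⟩ := h E.a₄ (by simp)
  obtain ⟨x₆, h₆⟩ := h E.a₆ (by simp)
  rw [Algebra.smul_def] at h₁ h₂ h₃ h₄ h₆
  refine ⟨⟨x₁, b * x₂, b ^ 2 * x₃, b ^ 3 * x₄, b ^ 5 * x₆⟩,
    ⟨(Units.mk0 (algebraMap (𝓞 K) K b) hbK)⁻¹, 0, 0, 0⟩, ?_⟩
  ext
  · simp only [WeierstrassCurve.variableChange_def, WeierstrassCurve.map, inv_inv, Units.val_mk0]
    rw [h₁]
    ring
  · simp only [WeierstrassCurve.variableChange_def, WeierstrassCurve.map, inv_inv, Units.val_mk0]
    rw [map_mul, h₂]
    ring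
  · simp only [WeierstrassCurve.variableChange_def, WeierstrassCurve.map, inv_inv, Units.val_mk0]
    rw [map_mul, map_pow, h₃]
    ring
  · simp only [WeierstrassCurve.variableChange_def, WeierstrassCurve.map, inv_inv, Units.val_mk0]
    rw [map_mul, map_pow, h₄]
    ring
  · simp only [WeierstrassCurve.variableChange_def, WeierstrassCurve.map, inv_inv, Units.val_mk0]
    rw [map_mul, map_pow, h₆]
    ring

theorem model_Δ {E : WeierstrassCurve K} (hE : E.IsElliptic) {W : WeierstrassCurve (𝓞 K)}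
    (h : IsModel E W) : W.Δ ≠ 0 := by
  obtain ⟨C, hC⟩ := h
  have h1 := congrArg WeierstrassCurve.Δ hC
  rw [WeierstrassCurve.variableChange_Δ, WeierstrassCurve.map_Δ] at h1
  intro h0
  rw [h0, map_zero] at h1
  have h2 : E.Δ ≠ 0 := E.isUnit_Δ.ne_zero
  have h3 : ((C.u⁻¹ : Kˣ) : K) ≠ 0 := Units.ne_zero _
  exact mul_ne_zero (pow_ne_zero _ h3) h2 h1

theorem isModel_map {F : Type} [Field F] [NumberField F] [Algebra K F] {E : WeierstrassCurve K}
    {W : WeierstrassCurve (𝓞 K)} (h : IsModel E W) :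
    IsModel (E.map (algebraMap K F)) (W.map (algebraMap (𝓞 K) (𝓞 F))) := by
  obtain ⟨C, hC⟩ := h
  refine ⟨C.map (algebraMap K F), ?_⟩
  rw [WeierstrassCurve.map_variableChange, hC, WeierstrassCurve.map_map, WeierstrassCurve.map_map]
  rfl

/-- Minimal models exist. -/
theorem exists_minimalModels (E : WeierstrassCurve K) (hE : E.IsElliptic) :
    ∃ V : HeightOneSpectrum (𝓞 K) → WeierstrassCurve (𝓞 K), MinimalModels E V := by
  classical
  have h : ∀ v : HeightOneSpectrum (𝓞 K), ∃ V : WeierstrassCurve (𝓞 K), IsMinAt E v V := by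
    intro v
    have hex : ∃ n : ℕ, ∃ W : WeierstrassCurve (𝓞 K), IsModel E W ∧ W.Δ ∉ v.asIdeal ^ n := by
      obtain ⟨W, hW⟩ := exists_model E
      have h0 := model_Δ hE hW
      by_contra hcon
      push Not at hcon
      have h1 : W.Δ ∈ ⨅ n : ℕ, v.asIdeal ^ n := by
        rw [Ideal.mem_iInf]
        exact fun n => hcon n W hW
      rw [Ideal.iInf_pow_eq_bot_of_isDomain _ v.isPrime.ne_top] at h1
      exact h0 h1
    obtain ⟨V, hV1, hV2⟩ := Nat.find_spec hex
    refine ⟨V, hV1, fun W hW n hn => ?_⟩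
    by_contra hcon
    have h3 := Nat.find_min' hex ⟨W, hW, hcon⟩
    exact hV2 (Ideal.pow_le_pow_right h3 hn)
  choose V hV using h
  exact ⟨V, fun v => hV v⟩

end

section
variable {k : Type} [Field k]

theorem aff_equiv {k' : Type} [Field k'] (e : k ≃+* k') (V : WeierstrassCurve k) :
    aff (V.map (e : k →+* k')) = aff V := by
  unfold aff
  symm
  refine Nat.card_congr (Equiv.subtypeEquiv (Equiv.prodCongr e.toEquiv e.toEquiv) fun p => ?_)
  simp only [WeierstrassCurve.map, Equiv.prodCongr_apply, Prod.map_fst, Prod.map_snd]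
  change _ ↔ (e p.2) ^ 2 + e V.a₁ * e p.1 * e p.2 + e V.a₃ * e p.2 =
    (e p.1) ^ 3 + e V.a₂ * (e p.1) ^ 2 + e V.a₄ * e p.1 + e V.a₆
  constructor
  · intro h
    have := congrArg e h
    simpa only [map_add, map_mul, map_pow] using this
  · intro h
    apply e.injective
    simpa only [map_add, map_mul, map_pow] using h

theorem exists_algEquiv [Finite k] {κ κ' : Type} [Field κ] [Field κ'] [Algebra k κ]
    [Algebra k κ'] (h : Module.finrank k κ = Module.finrank k κ') (h0 : 0 < Module.finrank k κ) :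
    Nonempty (κ ≃ₐ[k] κ') := by
  obtain ⟨p, hp⟩ := CharP.exists k
  have hpp : Fact p.Prime := by
    have hf : Fintype k := Fintype.ofFinite k
    exact ⟨CharP.char_is_prime k p⟩
  have hne : NeZero (Module.finrank k κ) := ⟨h0.ne'⟩
  exact ⟨(FiniteField.algEquivExtension k p (Module.finrank k κ) κ rfl).trans
    (FiniteField.algEquivExtension k p (Module.finrank k κ) κ' h.symm).symm⟩

/-- the number of the affine points over the extension of degree `d` -/
theorem exists_aff [Finite k] (V : WeierstrassCurve k) (d : ℕ) : ∃ N : ℕ, ∀ (κ : Type) [Field κ]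
    [Algebra k κ], 0 < Module.finrank k κ → Module.finrank k κ = d →
      aff (V.map (algebraMap k κ)) = N := by
  classical
  by_cases h : ∃ (κ : Type) (_ : Field κ) (_ : Algebra k κ),
      0 < Module.finrank k κ ∧ Module.finrank k κ = d
  · obtain ⟨κ₀, i1, i2, h0, h1⟩ := h
    refine ⟨aff (V.map (algebraMap k κ₀)), fun κ j1 j2 h0' h1' => ?_⟩
    obtain ⟨e⟩ := exists_algEquiv (k := k) (h1.trans h1'.symm) h0
    rw [← aff_equiv e.toRingEquiv, WeierstrassCurve.map_map]
    congr 2
    ext x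
    exact (e.commutes x).symm
  · refine ⟨0, fun κ _ _ h0 h1 => absurd ⟨κ, inferInstance, inferInstance, h0, h1⟩ h⟩

/-- **Hasse's bound** in characteristic prime to `6`. -/
theorem hasse [Fintype k] (h6 : (6 : k) ≠ 0) {V : WeierstrassCurve k} (hV : V.Δ ≠ 0) :
    |((Fintype.card k : ℝ) - aff V)| ≤ 2 * Real.sqrt (Fintype.card k) := by
  classical
  have h1 : (aff V : ℤ) = Fintype.card k + csum V.c₄ V.c₆ := by
    rw [aff_eq_short h6, short_eq h6]
    rfl
  have h2 : V.c₄ ^ 3 - V.c₆ ^ 2 ≠ 0 := by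
    rw [← WeierstrassCurve.c_relation]
    refine mul_ne_zero ?_ hV
    have : (1728 : k) = 6 ^ 3 * 8 := by norm_num
    have h8 : (8 : k) ≠ 0 := by
      intro h
      apply h6
      have h2 : (2 : k) = 0 := by
        have : (2 : k) ^ 3 = 0 := by rw [← h]; norm_num
        exact pow_eq_zero_iff (by norm_num) |>.1 this
      have : (6 : k) = 2 * 3 := by norm_num
      rw [this, h2, zero_mul]
    rw [this]
    exact mul_ne_zero (pow_ne_zero _ h6) h8
  have h3 := csum_bound h6 h2
  have h4 : ((Fintype.card k : ℝ) - aff V) = -(csum V.c₄ V.c₆ : ℝ) := by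
    have := congrArg (fun z : ℤ => (z : ℝ)) h1
    push_cast at this
    rw [this]
    ring
  rw [h4, abs_neg]
  exact h3

end

end Pool.Agent.Q5.BR
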