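import Pool.Agent.Q5.BR.Rad

/-! Radical extensions `K(c^{1/p})`, `K(a^{1/p}, b^{1/p})` and the relation between them. -/

set_option autoImplicit false
set_option linter.unusedSectionVars false

namespace Pool.Agent.Q5.BR

open NumberField IsDedekindDomain Filter Pool.Agent.W401.Cheb Pool.Agent.W353.NF Polynomial

section
variable {L : Type} [Field L] [NumberField L]

/-- the polynomial `x^p - c` -/
noncomputable def pol (p : ℕ) (c : L) : L[X] := X ^ p - C c

theorem pol_ne_zero {p : ℕ} (hp : 0 < p) (c : L) : pol p c ≠ 0 := X_pow_sub_C_ne_zero hp c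

theorem pol_natDegree (p : ℕ) (c : L) : (pol p c).natDegree = p := natDegree_X_pow_sub_C

theorem finite_rd {p : ℕ} (hp : 0 < p) (c : L) : Module.Finite L (AdjoinRoot (pol p c)) :=
  (AdjoinRoot.powerBasis (pol_ne_zero hp c)).finite

theorem finrank_rd {p : ℕ} (hp : 0 < p) (c : L) :
    Module.finrank L (AdjoinRoot (pol p c)) = p := by
  rw [(AdjoinRoot.powerBasis (pol_ne_zero hp c)).finrank, AdjoinRoot.powerBasis_dim,
    pol_natDegree]

theorem pos_of_irr {p : ℕ} {c : L} (h : Irreducible (pol p c)) : 0 < p := by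
  have h1 := h.natDegree_pos
  rwa [pol_natDegree] at h1

theorem numberField_rd {p : ℕ} {c : L} [h : Fact (Irreducible (pol p c))] :
    NumberField (AdjoinRoot (pol p c)) := by
  have h0 : CharZero (AdjoinRoot (pol p c)) :=
    charZero_of_injective_algebraMap (algebraMap L (AdjoinRoot (pol p c))).injective
  have h1 : Module.Finite L (AdjoinRoot (pol p c)) := finite_rd (pos_of_irr h.out) c
  exact { to_charZero := h0, to_finiteDimensional := Module.Finite.trans L _ }

end

section
variable {K : Type} [Field K] [NumberField K]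

/-- the number of the `p`-th roots of `c` fixed by `σ` -/
noncomputable def Rt (p : ℕ) (c : K) (σ : GK K) : ℕ :=
  Nat.card {r : AlgebraicClosure K // r ^ p = algebraMap K (AlgebraicClosure K) c ∧ σ r = r}

theorem fixn_rd {L : Type} [Field L] [NumberField L] [Algebra K L] {p : ℕ} {c : L}
    [h : Fact (Irreducible (pol p c))] (c₀ : K) (hc : c = algebraMap K L c₀)
    (hn : NumberField (AdjoinRoot (pol p c))) (σ : GK K) :
    fixn K (AdjoinRoot (pol p c)) σ = fixn K L σ * Rt p c₀ σ := by
  classical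
  have hp := pos_of_irr h.out
  unfold fixn Rt
  rw [← Nat.card_prod]
  have hroot : (AdjoinRoot.root (pol p c)) ^ p = algebraMap L (AdjoinRoot (pol p c)) c := by
    have h1 := AdjoinRoot.eval₂_root (pol p c)
    unfold pol at h1 ⊢
    rw [eval₂_sub, eval₂_pow, eval₂_X, eval₂_C, sub_eq_zero] at h1
    exact h1
  have hof : ∀ x : K, algebraMap K (AdjoinRoot (pol p c)) x =
      AdjoinRoot.of (pol p c) (algebraMap K L x) := fun x =>
    IsScalarTower.algebraMap_apply K L (AdjoinRoot (pol p c)) x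
  have key : ∀ τ : AdjoinRoot (pol p c) →ₐ[K] AlgebraicClosure K,
      (τ (AdjoinRoot.root (pol p c))) ^ p = algebraMap K (AlgebraicClosure K) c₀ := by
    intro τ
    have h3 : algebraMap L (AdjoinRoot (pol p c)) c = algebraMap K (AdjoinRoot (pol p c)) c₀ := by
      rw [hof]
      exact congrArg (AdjoinRoot.of (pol p c)) hc
    rw [← map_pow, hroot, h3]
    exact τ.commutes c₀
  have hext : ∀ τ τ' : AdjoinRoot (pol p c) →ₐ[K] AlgebraicClosure K,
      (∀ x : L, τ (AdjoinRoot.of (pol p c) x) = τ' (AdjoinRoot.of (pol p c) x)) →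
      τ (AdjoinRoot.root _) = τ' (AdjoinRoot.root _) → τ = τ' := by
    intro τ τ' h1 h2
    refine AlgHom.ext fun x => ?_
    induction x using AdjoinRoot.induction_on with
    | _ g =>
      induction g using Polynomial.induction_on' with
      | add f g hf hg => rw [map_add, map_add, map_add, hf, hg]
      | monomial n x =>
        rw [← C_mul_X_pow_eq_monomial, map_mul, map_pow, AdjoinRoot.mk_X, AdjoinRoot.mk_C,
          map_mul, map_mul, map_pow, map_pow, h1, h2]
  have hev : ∀ (i : L →ₐ[K] AlgebraicClosure K) (r : AlgebraicClosure K),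
      r ^ p = algebraMap K (AlgebraicClosure K) c₀ → (pol p c).eval₂ (i : L →+* _) r = 0 := by
    intro i r h2
    unfold pol
    rw [eval₂_sub, eval₂_pow, eval₂_X, eval₂_C, sub_eq_zero, h2, hc]
    exact (i.commutes c₀).symm
  refine Nat.card_congr
    { toFun := fun τ => (⟨τ.1.comp (IsScalarTower.toAlgHom K L (AdjoinRoot (pol p c))), ?_⟩,
        ⟨τ.1 (AdjoinRoot.root _), key τ.1, ?_⟩)
      invFun := fun x => ⟨AdjoinRoot.liftAlgHom (pol p c) x.1.1 x.2.1 (hev x.1.1 x.2.1 x.2.2.1), ?_⟩
      left_inv := ?_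
      right_inv := ?_ }
  · have h1 := τ.2
    ext x
    exact DFunLike.congr_fun h1 (AdjoinRoot.of (pol p c) x)
  · exact DFunLike.congr_fun τ.2 (AdjoinRoot.root _)
  · refine hext _ _ (fun y => ?_) ?_
    · rw [act_apply, AlgHom.comp_apply, AdjoinRoot.liftAlgHom_of]
      exact DFunLike.congr_fun x.1.2 y
    · rw [act_apply, AlgHom.comp_apply, AdjoinRoot.liftAlgHom_root]
      exact x.2.2.2
  · rintro ⟨τ, hτ⟩
    apply Subtype.ext
    refine hext _ _ (fun y => ?_) ?_
    · rw [AdjoinRoot.liftAlgHom_of]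
      rfl
    · rw [AdjoinRoot.liftAlgHom_root]
  · rintro ⟨⟨i, hi⟩, ⟨r, hr⟩⟩
    refine Prod.ext (Subtype.ext ?_) (Subtype.ext ?_)
    · ext y
      exact AdjoinRoot.liftAlgHom_of (pol p c) i r (hev i r hr.1) y
    · exact AdjoinRoot.liftAlgHom_root (pol p c) i r (hev i r hr.1)

theorem fixn_self (σ : GK K) : fixn K K σ = 1 := by
  unfold fixn
  have h1 : ∀ i : K →ₐ[K] AlgebraicClosure K, i = Algebra.ofId K (AlgebraicClosure K) := fun i =>
    AlgHom.ext fun x => i.commutes x
  rw [Nat.card_eq_one_iff_unique]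
  exact ⟨⟨fun i j => Subtype.ext ((h1 i.1).trans (h1 j.1).symm)⟩,
    ⟨⟨Algebra.ofId K _, h1 _⟩⟩⟩

end

end Pool.Agent.Q5.BR
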