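import Pool.Agent.Q5.BR.Rank

/-! The relation between the ranks. -/

set_option autoImplicit false
set_option linter.unusedSectionVars false

namespace Pool.Agent.Q5.BR

open WeierstrassCurve NumberField Pool.Agent.W353.NF Pool.Agent.W401.Cheb
open scoped Classical

section
variable {K : Type} [Field K] [NumberField K]

/-- the character of the points -/
noncomputable def chr (E : WeierstrassCurve K) (N : Type) [Field N] [NumberField N] [Algebra K N]
    (g : N ≃ₐ[K] N) : ℂ := (cx (rep E N)).character g

/-- embeddings into a normal subfield of the algebraic closure -/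
noncomputable def embEquiv (F : Type) [Field F] [Algebra K F]
    (N : IntermediateField K (AlgebraicClosure K))
    (hN : ∀ i : F →ₐ[K] AlgebraicClosure K, i.fieldRange ≤ N) :
    (F →ₐ[K] N) ≃ (F →ₐ[K] AlgebraicClosure K) where
  toFun i := N.val.comp i
  invFun i := i.codRestrict N.toSubalgebra fun x => hN i ⟨x, rfl⟩
  left_inv _ := AlgHom.ext fun _ => Subtype.ext rfl
  right_inv _ := AlgHom.ext fun _ => rfl

/-- the fixed embeddings -/
theorem card_fixed (F : Type) [Field F] [Algebra K F]
    (N : IntermediateField K (AlgebraicClosure K)) [Normal K N]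
    (hN : ∀ i : F →ₐ[K] AlgebraicClosure K, i.fieldRange ≤ N) (σ : GK K) :
    Nat.card {i : F →ₐ[K] N // ((AlgEquiv.restrictNormal σ N : N ≃ₐ[K] N) : N →ₐ[K] N).comp i = i} =
      fixn K F σ := by
  unfold fixn
  refine Nat.card_congr (Equiv.subtypeEquiv (embEquiv F N hN) fun i => ?_)
  constructor
  · intro h
    apply AlgHom.ext
    intro x
    have h1 := DFunLike.congr_fun h x
    have h2 := AlgEquiv.restrictNormal_commutes σ N (i x)
    change (AlgEquiv.restrictNormal σ N) (i x) = i x at h1
    change σ (algebraMap N (AlgebraicClosure K) (i x)) = algebraMap N (AlgebraicClosure K) (i x)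
    rw [← h2, h1]
  · intro h
    apply AlgHom.ext
    intro x
    have h1 := DFunLike.congr_fun h x
    have h2 := AlgEquiv.restrictNormal_commutes σ N (i x)
    change σ (algebraMap N (AlgebraicClosure K) (i x)) =
      algebraMap N (AlgebraicClosure K) (i x) at h1
    change (AlgEquiv.restrictNormal σ N) (i x) = i x
    exact (algebraMap N (AlgebraicClosure K)).injective (h2.trans h1)

variable {ι : Type} [Fintype ι]

/-- **The relation between the ranks.** -/
theorem rank_relation {X : ι → Ext K} {n : ι → ℤ} {m : ℤ}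
    (h : ∀ σ : GK K, ∑ j, n j * (fixn K (X j).F σ : ℤ) = m) {E : WeierstrassCurve K}
    (hE : E.IsElliptic) :
    ∑ j, n j * (Module.finrank ℤ (E.baseChange (X j).F).toAffine.Point : ℤ) =
      m * (Module.finrank ℤ (E.baseChange K).toAffine.Point : ℤ) := by
  classical
  let N : IntermediateField K (AlgebraicClosure K) :=
    ⨆ j, IntermediateField.normalClosure K (X j).F (AlgebraicClosure K)
  have hfd1 : ∀ j, FiniteDimensional K (X j).F := fun j => inferInstance
  have hfd : FiniteDimensional K N := by
    have : ∀ j, FiniteDimensional K (IntermediateField.normalClosure K (X j).F (AlgebraicClosure K)) :=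
      fun j => inferInstance
    exact IntermediateField.finiteDimensional_iSup_of_finite
  have hnor : Normal K N := by
    have : ∀ j, Normal K (IntermediateField.normalClosure K (X j).F (AlgebraicClosure K)) :=
      fun j => inferInstance
    exact IntermediateField.normal_iSup (F := K) (K := AlgebraicClosure K)
      (t := fun j => IntermediateField.normalClosure K (X j).F (AlgebraicClosure K))
  have hnf : NumberField N := NumberField.of_module_finite K N
  have hgal : IsGalois K N := {}
  have hle : ∀ j, ∀ i : (X j).F →ₐ[K] AlgebraicClosure K, i.fieldRange ≤ N := fun j i =>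
    (AlgHom.fieldRange_le_normalClosure i).trans (le_iSup
      (fun j => IntermediateField.normalClosure K (X j).F (AlgebraicClosure K)) j)
  have hleK : ∀ i : K →ₐ[K] AlgebraicClosure K, i.fieldRange ≤ N := by
    rintro i _ ⟨x, rfl⟩
    change i x ∈ N
    have h1 : i x = algebraMap K (AlgebraicClosure K) x := i.commutes x
    rw [h1]
    exact N.algebraMap_mem x
  have hcard : ∀ j, Nat.card ((X j).F →ₐ[K] N) = Module.finrank K (X j).F := by
    intro j
    rw [Nat.card_congr (embEquiv (X j).F N (hle j)), Nat.card_eq_fintype_card, AlgHom.card]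
  have hcardK : Nat.card (K →ₐ[K] N) = Module.finrank K K := by
    rw [Nat.card_congr (embEquiv K N hleK), Nat.card_eq_fintype_card, AlgHom.card]
  have hr : ∀ j, (Nat.card (N ≃ₐ[K] N) : ℂ) *
      (Module.finrank ℤ (E.baseChange (X j).F).toAffine.Point : ℂ) =
      ∑ g : N ≃ₐ[K] N, chr E N g *
        (Nat.card {i : (X j).F →ₐ[K] N // (g : N →ₐ[K] N).comp i = i} : ℂ) := by
    intro j
    exact rank_sum hE (N := N) (hcard j)
  have hrK : (Nat.card (N ≃ₐ[K] N) : ℂ) *
      (Module.finrank ℤ (E.baseChange K).toAffine.Point : ℂ) =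
      ∑ g : N ≃ₐ[K] N, chr E N g *
        (Nat.card {i : K →ₐ[K] N // (g : N →ₐ[K] N).comp i = i} : ℂ) := by
    exact rank_sum hE (N := N) hcardK
  have hfix : ∀ g : N ≃ₐ[K] N, ∑ j, (n j : ℂ) *
      (Nat.card {i : (X j).F →ₐ[K] N // (g : N →ₐ[K] N).comp i = i} : ℂ) = m := by
    intro g
    obtain ⟨σ, rfl⟩ := AlgEquiv.restrictNormalHom_surjective (AlgebraicClosure K) (K₁ := N) g
    have h1 := congrArg (fun z : ℤ => (z : ℂ)) (h σ)
    push_cast at h1
    rw [← h1]
    refine Finset.sum_congr rfl fun j _ => ?_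
    rw [← card_fixed (X j).F N (hle j) σ]
    rfl
  have hfixK : ∀ g : N ≃ₐ[K] N,
      (Nat.card {i : K →ₐ[K] N // (g : N →ₐ[K] N).comp i = i} : ℂ) = 1 := by
    intro g
    obtain ⟨σ, rfl⟩ := AlgEquiv.restrictNormalHom_surjective (AlgebraicClosure K) (K₁ := N) g
    have h1 := card_fixed K N hleK σ
    rw [fixn_self] at h1
    have h2 : Nat.card {i : K →ₐ[K] N // (((AlgEquiv.restrictNormalHom N) σ : N ≃ₐ[K] N) :
      N →ₐ[K] N).comp i = i} = 1 := h1
    rw [h2, Nat.cast_one]
  have hG : (Nat.card (N ≃ₐ[K] N) : ℂ) ≠ 0 := by exact_mod_cast Nat.card_pos.ne'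
  have key : (Nat.card (N ≃ₐ[K] N) : ℂ) *
      ∑ j, (n j : ℂ) * (Module.finrank ℤ (E.baseChange (X j).F).toAffine.Point : ℂ) =
      (Nat.card (N ≃ₐ[K] N) : ℂ) * (m *
        (Module.finrank ℤ (E.baseChange K).toAffine.Point : ℂ)) := by
    rw [mul_left_comm, hrK, Finset.mul_sum]
    have h1 : ∀ j, (Nat.card (N ≃ₐ[K] N) : ℂ) * ((n j : ℂ) *
        (Module.finrank ℤ (E.baseChange (X j).F).toAffine.Point : ℂ)) =
        ∑ g : N ≃ₐ[K] N, (n j : ℂ) * (chr E N g *
          (Nat.card {i : (X j).F →ₐ[K] N // (g : N →ₐ[K] N).comp i = i} : ℂ)) := by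
      intro j
      rw [mul_left_comm, hr j, Finset.mul_sum]
    rw [Finset.sum_congr rfl fun j _ => h1 j, Finset.sum_comm, Finset.mul_sum]
    refine Finset.sum_congr rfl fun g _ => ?_
    rw [hfixK g, mul_one, ← hfix g, Finset.sum_mul]
    exact Finset.sum_congr rfl fun j _ => by ring
  have h2 := mul_left_cancel₀ hG key
  exact_mod_cast h2

end

end Pool.Agent.Q5.BR
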